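import Pool.Agent.Helper76.ND.StD

/-!
# Project ND (MP_77ff3d_nt): module Co (collisions)
-/

set_option autoImplicit false

noncomputable section

namespace Pool.Agent.Helper43.ND

open Pool.Agent.Helper76.ND Finset

lemma cc_snoc_false_Co (a : List Bool) : cc (a ++ [false]) = 2 * cc a := by
  rw [cc_append]
  simp

lemma cc_snoc_true_Co (a : List Bool) : cc (a ++ [true]) = 2 * cc a + 3 ^ hd a := by
  rw [cc_append]
  simp

lemma odd_pow_Co (n : ℕ) : 3 ^ n % 2 = 1 := by
  rw [Nat.pow_mod]
  simp

lemma inj_Co : ∀ (n : ℕ) (l l' : List Bool), l.length = n → l'.length = n → hd l = hd l' →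
    cc l = cc l' → l = l' := by
  intro n
  induction n with
  | zero =>
    intro l l' h1 h2 _ _
    rw [List.length_eq_zero_iff] at h1 h2
    rw [h1, h2]
  | succ n ih =>
    intro l l' h1 h2 h3 h4
    rcases List.eq_nil_or_concat' l with rfl | ⟨a, x, rfl⟩
    · simp at h1
    rcases List.eq_nil_or_concat' l' with rfl | ⟨b, y, rfl⟩
    · simp at h2
    have e1 : a.length = n := by simpa using h1
    have e2 : b.length = n := by simpa using h2
    have o1 := odd_pow_Co (hd a)
    have o2 := odd_pow_Co (hd b)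
    cases x <;> cases y
    · rw [cc_snoc_false_Co, cc_snoc_false_Co] at h4
      rw [hd_append, hd_append] at h3
      rw [ih a b e1 e2 (by simpa using h3) (by omega)]
    · rw [cc_snoc_false_Co, cc_snoc_true_Co] at h4
      omega
    · rw [cc_snoc_true_Co, cc_snoc_false_Co] at h4
      omega
    · rw [cc_snoc_true_Co, cc_snoc_true_Co] at h4
      rw [hd_append, hd_append] at h3
      have h5 : hd a = hd b := by simpa using h3
      rw [h5] at h4
      rw [ih a b e1 e2 h5 (by omega)]

lemma sum_cg_Co (n k t : ℕ) : ∑ r, cg n k t r ≤ q t k := by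
  have h1 : ∑ r, cg n k t r =
      (((W t).filter (fun l => hd l = k ∧ cc l < 3 ^ n)).card : ℝ) / 2 ^ t := by
    simp only [cg]
    rw [← Finset.sum_div]
    congr 1
    rw [← Nat.cast_sum]
    congr 1
    rw [Finset.card_eq_sum_card_fiberwise (f := Yz n) (t := univ) (by intro x _; simp)]
    refine Finset.sum_congr rfl (fun r _ => ?_)
    rw [Finset.filter_filter]
    congr 1
    ext l
    simp only [Finset.mem_filter]
    tauto
  rw [h1]
  unfold q
  refine div_le_div_of_nonneg_right ?_ (by positivity)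
  rw [← card_hd t k]
  exact_mod_cast Finset.card_le_card (by
    intro l hl
    rw [Finset.mem_filter] at hl ⊢
    exact ⟨hl.1, hl.2.1⟩)

theorem hCo (hYz : StYz) : StCo := by
  obtain ⟨hinv, -⟩ := hYz
  have hcg0 : ∀ n k t (r : ZMod (3 ^ n)), 0 ≤ cg n k t r := by
    intro n k t r
    unfold cg
    positivity
  refine ⟨fun l l' h1 h2 h3 => inj_Co l.length l l' rfl h1.symm h2 h3, ?_, ?_⟩
  · intro n k t
    have hle : ∀ r : ZMod (3 ^ n), cg n k t r ≤ 1 / 2 ^ t := by
      intro r
      unfold cg
      refine div_le_div_of_nonneg_right ?_ (by positivity)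
      have h1 : ((W t).filter (fun l => hd l = k ∧ cc l < 3 ^ n ∧ Yz n l = r)).card ≤ 1 := by
        rw [Finset.card_le_one]
        intro l hl l' hl'
        rw [Finset.mem_filter, mem_W] at hl hl'
        obtain ⟨e1, e2, e3, e4⟩ := hl
        obtain ⟨f1, f2, f3, f4⟩ := hl'
        refine inj_Co t l l' e1 f1 (by rw [e2, f2]) ?_
        have h2 : Yz n l = Yz n l' := by rw [e4, f4]
        unfold Yz at h2
        rw [e1, f1] at h2
        have h3 : (2 : ZMod (3 ^ n)) ^ t * hf n ^ t = 1 := by
          rw [← mul_pow, hinv, one_pow]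
        have h4 : (cc l : ZMod (3 ^ n)) = (cc l' : ZMod (3 ^ n)) := by
          calc (cc l : ZMod (3 ^ n)) = (cc l : ZMod (3 ^ n)) * hf n ^ t * 2 ^ t := by
                rw [mul_assoc, mul_comm (hf n ^ t), h3, mul_one]
            _ = (cc l' : ZMod (3 ^ n)) * hf n ^ t * 2 ^ t := by rw [h2]
            _ = (cc l' : ZMod (3 ^ n)) := by
                rw [mul_assoc, mul_comm (hf n ^ t), h3, mul_one]
        rw [ZMod.natCast_eq_natCast_iff'] at h4
        rwa [Nat.mod_eq_of_lt e3, Nat.mod_eq_of_lt f3] at h4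
      exact_mod_cast h1
    have h5 : ∀ r : ZMod (3 ^ n), cg n k t r ^ 2 ≤ cg n k t r * (1 / 2 ^ t) := by
      intro r
      rw [pow_two]
      exact mul_le_mul_of_nonneg_left (hle r) (hcg0 n k t r)
    calc ∑ r, cg n k t r ^ 2 ≤ ∑ r, cg n k t r * (1 / 2 ^ t) :=
          Finset.sum_le_sum (fun r _ => h5 r)
      _ = (∑ r, cg n k t r) * (1 / 2 ^ t) := by rw [← Finset.sum_mul]
      _ ≤ q t k * (1 / 2 ^ t) :=
          mul_le_mul_of_nonneg_right (sum_cg_Co n k t) (by positivity)
      _ = q t k / 2 ^ t := by ring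
  · intro n k t
    rw [Finset.sum_congr rfl (fun r _ => abs_of_nonneg (hcg0 n k t r))]
    exact sum_cg_Co n k t

end Pool.Agent.Helper43.ND
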