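import Pool.Agent.Helper76.ND.StD

/-!
# Project ND (MP_77ff3d_nt): module Ho (Hoeffding for the binomial law)
-/

set_option autoImplicit false

noncomputable section

namespace Pool.Agent.Helper43.ND

open Pool.Agent.Helper76.ND Finset

lemma mgf_Ho (t : ℕ) (a : ℝ) :
    ∑ k ∈ range (t + 1), q t k * Real.exp (a * (2 * k - t)) = Real.cosh a ^ t := by
  have h1 : ∀ k ∈ range (t + 1), q t k * Real.exp (a * (2 * k - t)) =
      (Real.exp a ^ k * Real.exp (-a) ^ (t - k) * (t.choose k : ℝ)) / 2 ^ t := by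
    intro k hk
    rw [Finset.mem_range] at hk
    have h2 : Real.exp (a * (2 * k - t)) = Real.exp a ^ k * Real.exp (-a) ^ (t - k) := by
      rw [← Real.exp_nat_mul, ← Real.exp_nat_mul, ← Real.exp_add]
      congr 1
      rw [Nat.cast_sub (by omega)]
      ring
    rw [h2]
    unfold q
    ring
  rw [Finset.sum_congr rfl h1, ← Finset.sum_div, ← add_pow, Real.cosh_eq, div_pow]

lemma bound_Ho (t : ℕ) (D a : ℝ) (ht : 1 ≤ t) (ha : a ^ 2 = (2 * D / t) ^ 2) :
    Real.cosh a ^ t * Real.exp (-(2 * (2 * D / t) * D)) ≤ Real.exp (-(2 * D ^ 2 / t)) := by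
  have ht0 : (0 : ℝ) < t := by exact_mod_cast ht
  have h1 : Real.cosh a ≤ Real.exp (a ^ 2 / 2) := Real.cosh_le_exp_half_sq a
  have h2 : Real.cosh a ^ t ≤ Real.exp (a ^ 2 / 2) ^ t :=
    pow_le_pow_left₀ (Real.cosh_pos a).le h1 t
  rw [← Real.exp_nat_mul] at h2
  calc Real.cosh a ^ t * Real.exp (-(2 * (2 * D / t) * D))
      ≤ Real.exp (t * (a ^ 2 / 2)) * Real.exp (-(2 * (2 * D / t) * D)) :=
        mul_le_mul_of_nonneg_right h2 (Real.exp_pos _).le
    _ = Real.exp (-(2 * D ^ 2 / t)) := by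
        rw [← Real.exp_add, ha]
        congr 1
        field_simp
        ring

theorem hHo : StHo := by
  intro t D ht hD
  have ht0 : (0 : ℝ) < t := by exact_mod_cast ht
  set a : ℝ := 2 * D / t with ha
  have ha0 : 0 ≤ a := by positivity
  have h1 : ∀ k ∈ (range (t + 1)).filter (fun k : ℕ => D ≤ |(k : ℝ) - t / 2|),
      q t k ≤ q t k * Real.exp (a * (2 * k - t)) * Real.exp (-(2 * a * D)) +
        q t k * Real.exp (-a * (2 * k - t)) * Real.exp (-(2 * a * D)) := by
    intro k hk
    rw [Finset.mem_filter] at hk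
    have hq := q_nonneg t k
    rcases le_abs.1 hk.2 with h | h
    · have h2 : 1 ≤ Real.exp (a * (2 * k - t)) * Real.exp (-(2 * a * D)) := by
        rw [← Real.exp_add]
        apply Real.one_le_exp
        nlinarith
      have h3 : 0 ≤ q t k * Real.exp (-a * (2 * k - t)) * Real.exp (-(2 * a * D)) := by
        positivity
      nlinarith
    · have h2 : 1 ≤ Real.exp (-a * (2 * k - t)) * Real.exp (-(2 * a * D)) := by
        rw [← Real.exp_add]
        apply Real.one_le_exp
        nlinarith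
      have h3 : 0 ≤ q t k * Real.exp (a * (2 * k - t)) * Real.exp (-(2 * a * D)) := by
        positivity
      nlinarith
  have h2 : ∑ k ∈ (range (t + 1)).filter (fun k : ℕ => D ≤ |(k : ℝ) - t / 2|), q t k ≤
      ∑ k ∈ range (t + 1), (q t k * Real.exp (a * (2 * k - t)) * Real.exp (-(2 * a * D)) +
        q t k * Real.exp (-a * (2 * k - t)) * Real.exp (-(2 * a * D))) := by
    refine (Finset.sum_le_sum h1).trans ?_
    refine Finset.sum_le_sum_of_subset_of_nonneg (Finset.filter_subset _ _) (fun k _ _ => ?_)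
    have hq := q_nonneg t k
    positivity
  rw [Finset.sum_add_distrib, ← Finset.sum_mul, ← Finset.sum_mul, mgf_Ho, mgf_Ho] at h2
  have h3 := bound_Ho t D a ht (by rw [ha])
  have h4 := bound_Ho t D (-a) ht (by rw [neg_sq, ha])
  rw [← ha] at h3 h4
  linarith

end Pool.Agent.Helper43.ND
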