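import Pool.Agent.Helper76.ND.StD

/-!
# Project ND (MP_77ff3d_nt): module Fa (large values of `cc` are rare)
-/

set_option autoImplicit false

noncomputable section

namespace Pool.Agent.Helper43.ND

open Pool.Agent.Helper76.ND Finset

lemma sqrt_add_Fa (a b : ℝ) (ha : 0 ≤ a) (hb : 0 ≤ b) :
    Real.sqrt (a + b) ≤ Real.sqrt a + Real.sqrt b := by
  rw [Real.sqrt_le_left (by positivity)]
  have h1 := Real.sq_sqrt ha
  have h2 := Real.sq_sqrt hb
  have h3 : 0 ≤ Real.sqrt a * Real.sqrt b := by positivity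
  nlinarith

lemma sum_sqrt_Fa (t : ℕ) : ∑ l ∈ W t, Real.sqrt ((cc l : ℝ) / 2 ^ t) ≤ 11 * 2 ^ t := by
  induction t with
  | zero =>
    rw [sum_W_zero]
    simp
  | succ t ih =>
    rw [sum_W_succ]
    have h1 : ∀ l : List Bool, Real.sqrt ((cc (false :: l) : ℝ) / 2 ^ (t + 1)) =
        Real.sqrt (1 / 2) * Real.sqrt ((cc l : ℝ) / 2 ^ t) := by
      intro l
      rw [← Real.sqrt_mul (by norm_num), cc_false]
      congr 1
      rw [pow_succ]
      field_simp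
    have h2 : ∀ l ∈ W t, Real.sqrt ((cc (true :: l) : ℝ) / 2 ^ (t + 1)) ≤
        Real.sqrt (1 / 2) + Real.sqrt (3 / 2) * Real.sqrt ((cc l : ℝ) / 2 ^ t) := by
      intro l hl
      rw [mem_W] at hl
      rw [← Real.sqrt_mul (by norm_num)]
      have h3 : (cc (true :: l) : ℝ) / 2 ^ (t + 1) = 1 / 2 + 3 / 2 * ((cc l : ℝ) / 2 ^ t) := by
        rw [cc_true, hl]
        push_cast
        rw [pow_succ]
        field_simp
      rw [h3]
      exact sqrt_add_Fa _ _ (by norm_num) (by positivity)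
    rw [Finset.sum_congr rfl (fun l _ => h1 l), ← Finset.mul_sum]
    have h4 := Finset.sum_le_sum h2
    rw [Finset.sum_add_distrib, ← Finset.mul_sum, Finset.sum_const, card_W, nsmul_eq_mul] at h4
    have h5 : Real.sqrt (1 / 2) ≤ 0.7072 := by
      rw [Real.sqrt_le_left (by norm_num)]
      norm_num
    have h6 : Real.sqrt (3 / 2) ≤ 1.2248 := by
      rw [Real.sqrt_le_left (by norm_num)]
      norm_num
    have h7 : 0 ≤ ∑ l ∈ W t, Real.sqrt ((cc l : ℝ) / 2 ^ t) :=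
      Finset.sum_nonneg (fun _ _ => Real.sqrt_nonneg _)
    have h8 : (0 : ℝ) ≤ 2 ^ t := by positivity
    push_cast at h4
    set S₀ := ∑ l ∈ W t, Real.sqrt ((cc l : ℝ) / 2 ^ t) with hS₀
    have h9 : Real.sqrt (1 / 2) * S₀ ≤ 0.7072 * S₀ := mul_le_mul_of_nonneg_right h5 h7
    have h10 : Real.sqrt (3 / 2) * S₀ ≤ 1.2248 * S₀ := mul_le_mul_of_nonneg_right h6 h7
    have h11 : (2 : ℝ) ^ t * Real.sqrt (1 / 2) ≤ 2 ^ t * 0.7072 := mul_le_mul_of_nonneg_left h5 h8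
    have h12 : (11 : ℝ) * 2 ^ (t + 1) = 22 * 2 ^ t := by
      rw [pow_succ]
      ring
    rw [h12]
    linarith

theorem hFa : StFa := by
  intro n t
  have h3 : (0 : ℝ) < 2 ^ t := by positivity
  rw [div_le_iff₀ h3]
  have h1 : (((W t).filter (fun l => 3 ^ n ≤ cc l)).card : ℝ) ≤
      ∑ l ∈ (W t).filter (fun l => 3 ^ n ≤ cc l),
        Real.sqrt ((cc l : ℝ) / 2 ^ t) * Real.sqrt (2 ^ t / 3 ^ n) := by
    rw [Finset.card_eq_sum_ones]
    push_cast
    refine Finset.sum_le_sum (fun l hl => ?_)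
    rw [Finset.mem_filter] at hl
    rw [← Real.sqrt_mul (by positivity), Real.one_le_sqrt]
    have h2 : ((3 : ℝ) ^ n) ≤ cc l := by exact_mod_cast hl.2
    have h4 : (0 : ℝ) < 3 ^ n := by positivity
    rw [div_mul_div_comm, le_div_iff₀ (by positivity)]
    nlinarith
  have h2 : ∑ l ∈ (W t).filter (fun l => 3 ^ n ≤ cc l),
        Real.sqrt ((cc l : ℝ) / 2 ^ t) * Real.sqrt (2 ^ t / 3 ^ n) ≤
      ∑ l ∈ W t, Real.sqrt ((cc l : ℝ) / 2 ^ t) * Real.sqrt (2 ^ t / 3 ^ n) :=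
    Finset.sum_le_sum_of_subset_of_nonneg (Finset.filter_subset _ _)
      (fun _ _ _ => mul_nonneg (Real.sqrt_nonneg _) (Real.sqrt_nonneg _))
  rw [← Finset.sum_mul (s := W t)] at h2
  have h5 := mul_le_mul_of_nonneg_right (sum_sqrt_Fa t) (Real.sqrt_nonneg ((2 : ℝ) ^ t / 3 ^ n))
  calc _ ≤ _ := h1
    _ ≤ _ := h2
    _ ≤ _ := h5
    _ = _ := by ring

end Pool.Agent.Helper43.ND
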