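import Pool.Agent.Helper76.ND.StD

/-!
# Project ND (MP_77ff3d_nt): module Or (order of an element of `ZMod (3 ^ n)`)
-/

set_option autoImplicit false

noncomputable section

namespace Pool.Agent.Helper43.ND

open Pool.Agent.Helper76.ND Finset

theorem hOr (hYz : StYz) : StOr := by
  classical
  obtain ⟨hinv, -, -, -, -, -, -, -, -, hhalf⟩ := hYz
  intro n x
  have h3n : (3 : ZMod (3 ^ n)) ^ n = 0 := by
    have h1 := ZMod.natCast_self (3 ^ n)
    push_cast at h1
    exact h1
  have hex : ∃ m : ℕ, (3 : ZMod (3 ^ n)) ^ m * x = 0 := ⟨n, by rw [h3n, zero_mul]⟩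
  refine ⟨Nat.find hex, Nat.find_min' hex (by rw [h3n, zero_mul]), ?_, Nat.find_spec hex,
    fun e he => Nat.find_min hex he⟩
  have hle : Nat.find hex ≤ n := Nat.find_min' hex (by rw [h3n, zero_mul])
  have hsp := Nat.find_spec hex
  have hmin : ∀ e < Nat.find hex, (3 : ZMod (3 ^ n)) ^ e * x ≠ 0 :=
    fun e he => Nat.find_min hex he
  generalize Nat.find hex = n' at hle hsp hmin
  intro a
  refine ⟨?_, hhalf n x a⟩
  rcases Nat.eq_zero_or_pos n' with h0 | hpos
  · subst h0
    rw [pow_zero, one_mul] at hsp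
    refine ⟨1, -1, by norm_num, ?_⟩
    rw [hsp]
    simp [Xf]
  · set v : ℕ := (x * hf n ^ a).val with hv
    have hcast : ((v : ℕ) : ZMod (3 ^ n)) = x * hf n ^ a := by
      rw [hv, ZMod.natCast_val, ZMod.cast_id', id]
    have hdvd : 3 ^ n ∣ 3 ^ n' * v := by
      rw [← ZMod.natCast_eq_zero_iff]
      push_cast
      rw [hcast, ← mul_assoc, hsp, zero_mul]
    have hdvd2 : 3 ^ (n - n') ∣ v := by
      have h1 : 3 ^ n' * 3 ^ (n - n') ∣ 3 ^ n' * v := by
        rw [← pow_add, Nat.add_sub_cancel' hle]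
        exact hdvd
      exact (Nat.mul_dvd_mul_iff_left (by positivity)).1 h1
    obtain ⟨c, hc⟩ := hdvd2
    have hc3 : ¬ 3 ∣ c := by
      rintro ⟨d, hd⟩
      apply hmin (n' - 1) (by omega)
      have h1 : 3 ^ n ∣ 3 ^ (n' - 1) * v := by
        rw [hc, hd]
        refine ⟨d, ?_⟩
        have h2 : 3 ^ (n' - 1) * (3 ^ (n - n') * (3 * d)) =
            3 ^ (n' - 1 + (n - n') + 1) * d := by
          rw [pow_add, pow_add]
          ring
        rw [h2]
        congr 2
        omega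
      rw [← ZMod.natCast_eq_zero_iff] at h1
      push_cast at h1
      rw [hcast] at h1
      have h3 : (2 : ZMod (3 ^ n)) ^ a * hf n ^ a = 1 := by
        rw [← mul_pow, hinv, one_pow]
      calc (3 : ZMod (3 ^ n)) ^ (n' - 1) * x
          = (3 ^ (n' - 1) * (x * hf n ^ a)) * 2 ^ a := by
            rw [mul_assoc, mul_assoc, mul_comm (hf n ^ a), h3, mul_one]
        _ = 0 := by rw [h1, zero_mul]
    refine ⟨c, 0, by exact_mod_cast hc3, ?_⟩
    have h4 : Xf n x a = (v : ℝ) / 3 ^ n := rfl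
    rw [h4, hc]
    have h5 : (3 : ℝ) ^ n = 3 ^ n' * 3 ^ (n - n') := by
      rw [← pow_add, Nat.add_sub_cancel' hle]
    rw [h5]
    push_cast
    rw [add_zero]
    field_simp

end Pool.Agent.Helper43.ND
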