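import Pool.Agent.Helper76.ND.StD

/-!
# Project ND (MP_77ff3d_nt): module Tv (total variation under a shift by one)
-/

set_option autoImplicit false

noncomputable section

namespace Pool.Agent.Helper43.ND

open Pool.Agent.Helper76.ND Finset

lemma unimod_Tv (u : ℕ → ℝ) (p : ℕ) (h0 : ∀ s, 0 ≤ u s) (h1 : ∀ s, s < p → u s ≤ u (s + 1))
    (h2 : ∀ s, p ≤ s → u (s + 1) ≤ u s) (K : ℕ) :
    ∑ s ∈ range K, |u (s + 1) - u s| ≤ 2 * u p := by
  have key : ∀ K : ℕ, (K ≤ p → ∑ s ∈ range K, |u (s + 1) - u s| ≤ u K) ∧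
      (p ≤ K → ∑ s ∈ range K, |u (s + 1) - u s| ≤ 2 * u p - u K) := by
    intro K
    induction K with
    | zero =>
      refine ⟨fun _ => by simpa using h0 0, fun h => ?_⟩
      have hp : p = 0 := by omega
      subst hp
      have := h0 0
      simp
      linarith
    | succ K ih =>
      have ha : K + 1 ≤ p → ∑ s ∈ range (K + 1), |u (s + 1) - u s| ≤ u (K + 1) := by
        intro h
        rw [Finset.sum_range_succ]
        have h3 := ih.1 (by omega)
        have h4 := h1 K (by omega)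
        rw [abs_of_nonneg (by linarith)]
        linarith
      refine ⟨ha, fun h => ?_⟩
      rcases Nat.eq_or_lt_of_le h with h5 | h5
      · have h6 := ha (by omega)
        rw [h5]
        linarith
      · rw [Finset.sum_range_succ]
        have h3 := ih.2 (by omega)
        have h4 := h2 K (by omega)
        rw [abs_of_nonpos (by linarith)]
        linarith
  have h3 : ∑ s ∈ range K, |u (s + 1) - u s| ≤ ∑ s ∈ range (max K p), |u (s + 1) - u s| :=
    Finset.sum_le_sum_of_subset_of_nonneg (Finset.range_mono (le_max_left _ _))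
      (fun _ _ _ => abs_nonneg _)
  have h4 := (key (max K p)).2 (le_max_right _ _)
  have h5 := h0 (max K p)
  linarith

lemma up_Tv (m s : ℕ) (h : s + 1 ≤ 2 * m) : 2 * s.choose m ≤ (s + 1).choose m := by
  rcases Nat.lt_or_ge s m with h1 | h1
  · rw [Nat.choose_eq_zero_of_lt h1]
    omega
  · have h2 := Nat.choose_mul_succ_eq s m
    have h3 : 0 < s + 1 - m := by omega
    refine Nat.le_of_mul_le_mul_right ?_ h3
    rw [← h2]
    have h4 : 2 * (s + 1 - m) ≤ s + 1 := by omega
    calc 2 * s.choose m * (s + 1 - m) = s.choose m * (2 * (s + 1 - m)) := by ring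
      _ ≤ s.choose m * (s + 1) := Nat.mul_le_mul_left _ h4

lemma down_Tv (m s : ℕ) (h : 2 * m ≤ s) : (s + 1).choose m ≤ 2 * s.choose m := by
  have h2 := Nat.choose_mul_succ_eq s m
  have h3 : 0 < s + 1 - m := by omega
  refine Nat.le_of_mul_le_mul_right ?_ h3
  rw [← h2]
  have h4 : s + 1 ≤ 2 * (s + 1 - m) := by omega
  calc s.choose m * (s + 1) ≤ s.choose m * (2 * (s + 1 - m)) := Nat.mul_le_mul_left _ h4
    _ = 2 * s.choose m * (s + 1 - m) := by ring

lemma central_Tv (m : ℕ) : ((2 * m).choose m) ^ 2 * (2 * m + 1) ≤ 16 ^ m := by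
  induction m with
  | zero => simp
  | succ m ih =>
    have h1 : (m + 1) * (2 * (m + 1)).choose (m + 1) = 2 * (2 * m + 1) * (2 * m).choose m := by
      have := Nat.succ_mul_centralBinom_succ m
      simpa [Nat.centralBinom_eq_two_mul_choose] using this
    set A := (2 * (m + 1)).choose (m + 1)
    set B := (2 * m).choose m
    have h2 : 0 < (m + 1) ^ 2 := by positivity
    refine Nat.le_of_mul_le_mul_left ?_ h2
    calc (m + 1) ^ 2 * (A ^ 2 * (2 * (m + 1) + 1))
        = ((m + 1) * A) ^ 2 * (2 * m + 3) := by ring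
      _ = (2 * (2 * m + 1) * B) ^ 2 * (2 * m + 3) := by rw [h1]
      _ = (4 * (2 * m + 1) * (2 * m + 3)) * (B ^ 2 * (2 * m + 1)) := by ring
      _ ≤ (4 * (2 * m + 1) * (2 * m + 3)) * 16 ^ m := Nat.mul_le_mul_left _ ih
      _ ≤ (16 * (m + 1) ^ 2) * 16 ^ m := by
          refine Nat.mul_le_mul_right _ ?_
          nlinarith
      _ = (m + 1) ^ 2 * 16 ^ (m + 1) := by ring

theorem hTv : StTv := by
  refine ⟨1, one_pos, ?_⟩
  intro n K hn
  obtain ⟨m, rfl⟩ : ∃ m, n = m + 1 := ⟨n - 1, by omega⟩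
  have h0 : qs (m + 1) 0 = 0 := by simp [qs]
  have hs : ∀ s, qs (m + 1) (s + 1) = (s.choose m : ℝ) / 2 ^ (s + 1) := fun s => by simp [qs]
  have hup : ∀ s, s < 2 * m + 1 → qs (m + 1) s ≤ qs (m + 1) (s + 1) := by
    intro s hs1
    cases s with
    | zero =>
      rw [h0]
      exact qs_nonneg _ _
    | succ s =>
      rw [hs, hs, div_le_div_iff₀ (by positivity) (by positivity)]
      have h1 : (2 : ℝ) * s.choose m ≤ (s + 1).choose m := by
        exact_mod_cast up_Tv m s (by omega)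
      have h2 : (0 : ℝ) < 2 ^ (s + 1) := by positivity
      rw [pow_succ (2 : ℝ) (s + 1)]
      nlinarith
  have hdown : ∀ s, 2 * m + 1 ≤ s → qs (m + 1) (s + 1) ≤ qs (m + 1) s := by
    intro s hs1
    cases s with
    | zero => omega
    | succ s =>
      rw [hs, hs, div_le_div_iff₀ (by positivity) (by positivity)]
      have h1 : ((s + 1).choose m : ℝ) ≤ 2 * s.choose m := by
        exact_mod_cast down_Tv m s (by omega)
      have h2 : (0 : ℝ) < 2 ^ (s + 1) := by positivity
      rw [pow_succ (2 : ℝ) (s + 1)]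
      nlinarith
  have h1 := unimod_Tv (qs (m + 1)) (2 * m + 1) (fun s => qs_nonneg _ _) hup hdown K
  refine h1.trans ?_
  rw [hs]
  have h2 : 2 * (((2 * m).choose m : ℝ) / 2 ^ (2 * m + 1)) = ((2 * m).choose m : ℝ) / 4 ^ m := by
    rw [pow_succ, pow_mul]
    norm_num
    ring
  rw [h2]
  have h3 : Real.sqrt ((m + 1 : ℕ) : ℝ) ≤ Real.sqrt (2 * m + 1) := by
    apply Real.sqrt_le_sqrt
    push_cast
    have : (0 : ℝ) ≤ m := by positivity
    linarith
  have h4 : 0 < Real.sqrt ((m + 1 : ℕ) : ℝ) := Real.sqrt_pos.2 (by positivity)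
  have h5 : ((2 * m).choose m : ℝ) * Real.sqrt (2 * m + 1) ≤ 4 ^ m := by
    have h6 : (((2 * m).choose m : ℝ) * Real.sqrt (2 * m + 1)) ^ 2 ≤ (4 ^ m) ^ 2 := by
      rw [mul_pow, Real.sq_sqrt (by positivity)]
      have h7 : (((2 * m).choose m : ℝ)) ^ 2 * (2 * m + 1) ≤ 16 ^ m := by
        exact_mod_cast central_Tv m
      calc _ ≤ _ := h7
        _ = ((4 : ℝ) ^ m) ^ 2 := by
            rw [← pow_mul, mul_comm m 2, pow_mul]
            norm_num
    exact le_of_sq_le_sq h6 (by positivity)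
  rw [div_le_div_iff₀ (by positivity) h4]
  calc ((2 * m).choose m : ℝ) * Real.sqrt ((m + 1 : ℕ) : ℝ)
      ≤ ((2 * m).choose m : ℝ) * Real.sqrt (2 * m + 1) :=
        mul_le_mul_of_nonneg_left h3 (by positivity)
    _ ≤ 4 ^ m := h5
    _ = 1 * 4 ^ m := by ring

end Pool.Agent.Helper43.ND
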